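import Pool.Agent.J4H34.DN.Stm

set_option autoImplicit false

/-! # Project DN, (A): folding the roots and differentiating -/

namespace Pool.Agent.J4H97.DN

open Polynomial Complex Filter Topology Bornology
open Pool.Agent.J4H34.DN

theorem star_def (y : ℝ) (p : ℂ[X]) : J4H34.DN.star y p =
    C p.leadingCoeff * (p.roots.map (fun w => X - C (fold y w))).prod := rfl

/-- all roots have imaginary part at most `y` -/
def Low (y : ℝ) (p : ℂ[X]) : Prop := ∀ w ∈ p.roots, w.im ≤ y

theorem nd (p : ℂ[X]) : (derivative p).natDegree = p.natDegree - 1 := natDegree_derivative p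

theorem nd_iter (p : ℂ[X]) (n : ℕ) : (derivative^[n] p).natDegree = p.natDegree - n := by
  induction n with
  | zero => simp
  | succ n ih => rw [Function.iterate_succ_apply', nd, ih]; omega

theorem Low.der {y : ℝ} {p : ℂ[X]} (h : Low y p) : Low y (derivative p) := by
  intro w hw
  have hd : derivative p ≠ 0 := by
    intro h0
    rw [h0, roots_zero] at hw
    exact absurd hw (Multiset.notMem_zero _)
  have hp : 0 < p.natDegree := by
    rw [Nat.pos_iff_ne_zero]
    intro h0
    exact hd (derivative_of_natDegree_zero h0)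
  have h1 : w ∈ (derivative p).rootSet ℂ := by
    rw [mem_rootSet, coe_aeval_eq_eval]
    exact ⟨hd, (mem_roots hd).1 hw⟩
  have h2 := rootSet_derivative_subset_convexHull_rootSet (natDegree_pos_iff_degree_pos.1 hp) h1
  have h3 : convexHull ℝ (p.rootSet ℂ) ⊆ {c : ℂ | c.im ≤ y} := by
    refine convexHull_min ?_ (convex_halfSpace_im_le y)
    intro v hv
    rw [mem_rootSet, coe_aeval_eq_eval] at hv
    exact h v ((mem_roots hv.1).2 hv.2)
  exact h3 h2

theorem Low.ne {y : ℝ} {p : ℂ[X]} (h : Low y p) (hp : p ≠ 0) {z : ℂ} (hz : y < z.im) :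
    p.eval z ≠ 0 := by
  intro h0
  exact absurd (h z ((mem_roots hp).2 h0)) (not_le.2 hz)

/-- domination is inherited by the derivatives -/
theorem dom {y : ℝ} {f g : ℂ[X]} (hg : Low y g) (hd : f.natDegree ≤ g.natDegree)
    (h : ∀ z : ℂ, y < z.im → ‖f.eval z‖ ≤ ‖g.eval z‖) :
    ∀ z : ℂ, y < z.im → ‖(derivative f).eval z‖ ≤ ‖(derivative g).eval z‖ := by
  intro z hz
  by_contra hcon
  push Not at hcon
  rcases Nat.eq_zero_or_pos g.natDegree with h0 | h0
  · have : f.natDegree = 0 := by omega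
    rw [derivative_of_natDegree_zero this, derivative_of_natDegree_zero h0] at hcon
    exact lt_irrefl _ hcon
  have hg0 : g ≠ 0 := by
    rintro rfl
    simp at h0
  have hg' : derivative g ≠ 0 := by
    intro h1
    have := derivative_eq_zero.1 h1
    omega
  have hgz := hg.der.ne hg' hz
  set lam : ℂ := (derivative f).eval z / (derivative g).eval z with hlam
  have hlam1 : 1 < ‖lam‖ := by
    rw [hlam, norm_div, lt_div_iff₀ (norm_pos_iff.2 hgz), one_mul]
    exact hcon
  set q : ℂ[X] := C lam * g - f with hq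
  have hqne : ∀ w : ℂ, y < w.im → q.eval w ≠ 0 := by
    intro w hw h1
    rw [hq, eval_sub, eval_mul, eval_C, sub_eq_zero] at h1
    have h2 := h w hw
    rw [← h1, norm_mul] at h2
    have h3 : 0 < ‖g.eval w‖ := norm_pos_iff.2 (hg.ne hg0 hw)
    nlinarith
  have hqL : Low y q := by
    intro w hw
    by_contra h1
    push Not at h1
    have hq0 : q ≠ 0 := by
      intro h2
      rw [h2, roots_zero] at hw
      exact absurd hw (Multiset.notMem_zero _)
    exact hqne w h1 ((mem_roots hq0).1 hw)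
  have hqz : (derivative q).eval z = 0 := by
    rw [hq, derivative_sub, derivative_C_mul, eval_sub, eval_mul, eval_C, hlam,
      div_mul_cancel₀ _ hgz, sub_self]
  by_cases hq' : derivative q = 0
  · have h1 := derivative_eq_zero.1 hq'
    rw [natDegree_eq_zero] at h1
    obtain ⟨c, hc⟩ := h1
    have h2 : ∀ w : ℂ, f.eval w = lam * g.eval w - c := by
      intro w
      have h3 : q.eval w = c := by rw [← hc, eval_C]
      rw [hq, eval_sub, eval_mul, eval_C] at h3
      linear_combination -h3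
    have ht : Tendsto (fun t : ℝ => ‖(t : ℂ) * I‖) atTop atTop := by
      refine tendsto_atTop_mono (fun t => ?_) tendsto_id
      rw [norm_mul, norm_I, mul_one, Complex.norm_real]
      exact le_abs_self t
    have h3 := tendsto_norm_atTop g (natDegree_pos_iff_degree_pos.1 h0) ht
    obtain ⟨t, ht1, ht2⟩ := ((h3.eventually_gt_atTop (‖c‖ / (‖lam‖ - 1))).and
      (eventually_gt_atTop y)).exists
    have h4 : y < ((t : ℂ) * I).im := by simpa using ht2
    have h5 := h _ h4
    rw [h2] at h5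
    have h6 : ‖lam‖ * ‖g.eval ((t : ℂ) * I)‖ - ‖c‖ ≤ ‖lam * g.eval ((t : ℂ) * I) - c‖ := by
      rw [← norm_mul]
      exact norm_sub_norm_le _ _
    rw [div_lt_iff₀ (by linarith)] at ht1
    nlinarith
  · exact hqL.der.ne hq' hz hqz

theorem dom_iter {y : ℝ} {f g : ℂ[X]} (hg : Low y g) (hd : f.natDegree ≤ g.natDegree)
    (h : ∀ z : ℂ, y < z.im → ‖f.eval z‖ ≤ ‖g.eval z‖) (n : ℕ) :
    Low y (derivative^[n] g) ∧ ∀ z : ℂ, y < z.im →
      ‖(derivative^[n] f).eval z‖ ≤ ‖(derivative^[n] g).eval z‖ := by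
  induction n with
  | zero => exact ⟨hg, h⟩
  | succ n ih =>
    rw [Function.iterate_succ_apply', Function.iterate_succ_apply']
    refine ⟨ih.1.der, dom ih.1 ?_ ih.2⟩
    rw [nd_iter, nd_iter]
    omega

theorem eval_roots (p : ℂ[X]) (z : ℂ) :
    ‖p.eval z‖ = ‖p.leadingCoeff‖ * (p.roots.map fun w => ‖z - w‖).prod := by
  rw [(IsAlgClosed.splits p).eval_eq_prod_roots z, norm_mul]
  congr 1
  have := map_multiset_prod (normHom : ℂ →*₀ ℝ) (p.roots.map fun w => z - w)
  rw [Multiset.map_map] at this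
  exact this

theorem eval_star (y : ℝ) (p : ℂ[X]) (z : ℂ) :
    ‖(J4H34.DN.star y p).eval z‖ = ‖p.leadingCoeff‖ * (p.roots.map fun w => ‖z - fold y w‖).prod := by
  rw [star_def, eval_mul, eval_C, norm_mul]
  congr 1
  rw [eval_multiset_prod, Multiset.map_map]
  have := map_multiset_prod (normHom : ℂ →*₀ ℝ)
    (p.roots.map ((fun q : ℂ[X] => q.eval z) ∘ fun w => X - C (fold y w)))
  rw [Multiset.map_map] at this
  rw [show ‖(p.roots.map ((fun q : ℂ[X] => q.eval z) ∘ fun w => X - C (fold y w))).prod‖ =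
    (normHom : ℂ →*₀ ℝ) (p.roots.map ((fun q : ℂ[X] => q.eval z) ∘
      fun w => X - C (fold y w))).prod from rfl, this]
  congr 1
  refine Multiset.map_congr rfl fun w _ => ?_
  simp

theorem star_roots (y : ℝ) {p : ℂ[X]} (hp : p ≠ 0) :
    J4H34.DN.star y p ≠ 0 ∧ (J4H34.DN.star y p).roots = p.roots.map (fold y) ∧
      (J4H34.DN.star y p).leadingCoeff = p.leadingCoeff := by
  have hl : p.leadingCoeff ≠ 0 := leadingCoeff_ne_zero.2 hp
  have h1 : (p.roots.map (fun w => X - C (fold y w))).prod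
      = ((p.roots.map (fold y)).map (fun w => X - C w)).prod := by
    rw [Multiset.map_map]
    rfl
  have hm : ((p.roots.map (fold y)).map (fun w => X - C w)).prod.Monic :=
    monic_multiset_prod_of_monic _ _ fun w _ => monic_X_sub_C w
  refine ⟨?_, ?_, ?_⟩
  · rw [star_def, h1]
    exact mul_ne_zero (C_ne_zero.2 hl) hm.ne_zero
  · rw [star_def, h1, roots_C_mul _ hl, roots_multiset_prod_X_sub_C]
  · rw [star_def, h1, leadingCoeff_mul, leadingCoeff_C, hm.leadingCoeff, mul_one]

theorem fold_im_le (y : ℝ) (w : ℂ) : (fold y w).im ≤ y := by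
  rw [fold]
  split_ifs with h
  · show 2 * y - w.im ≤ y
    linarith
  · exact not_lt.1 h

theorem star_low (y : ℝ) (p : ℂ[X]) : Low y (J4H34.DN.star y p) := by
  by_cases hp : p = 0
  · subst hp
    intro w hw
    rw [star_def, leadingCoeff_zero, C_0, zero_mul, roots_zero] at hw
    exact absurd hw (Multiset.notMem_zero _)
  intro w hw
  rw [(star_roots y hp).2.1, Multiset.mem_map] at hw
  obtain ⟨v, _, rfl⟩ := hw
  exact fold_im_le y v

theorem star_zero (y : ℝ) : J4H34.DN.star y 0 = 0 := by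
  rw [star_def, leadingCoeff_zero, C_0, zero_mul]

theorem natDegree_star (y : ℝ) (p : ℂ[X]) : (J4H34.DN.star y p).natDegree = p.natDegree := by
  by_cases hp : p = 0
  · rw [hp, star_zero]
  have h1 := (IsAlgClosed.splits (J4H34.DN.star y p)).natDegree_eq_card_roots
  have h2 := (IsAlgClosed.splits p).natDegree_eq_card_roots
  rw [h1, h2, (star_roots y hp).2.1, Multiset.card_map]

theorem norm_le_of_sq {a b : ℂ} (h : a.re ^ 2 + a.im ^ 2 ≤ b.re ^ 2 + b.im ^ 2) : ‖a‖ ≤ ‖b‖ := by
  rw [Complex.norm_eq_sqrt_sq_add_sq, Complex.norm_eq_sqrt_sq_add_sq]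
  exact Real.sqrt_le_sqrt h

theorem fold_le {y : ℝ} {z : ℂ} (hz : y ≤ z.im) (w : ℂ) : ‖z - w‖ ≤ ‖z - fold y w‖ := by
  rw [fold]
  split_ifs with h
  · refine norm_le_of_sq ?_
    simp only [sub_re, sub_im, J4H34.DN.refl]
    nlinarith
  · exact le_rfl

theorem fold_eq {y : ℝ} {z : ℂ} (hz : z.im = y) (w : ℂ) : ‖z - fold y w‖ = ‖z - w‖ := by
  rw [fold]
  split_ifs with h
  · refine le_antisymm (norm_le_of_sq ?_) (norm_le_of_sq ?_) <;>
    · simp only [sub_re, sub_im, J4H34.DN.refl]
      rw [hz]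
      nlinarith
  · rfl

theorem prod_nonneg' (s : Multiset ℂ) (u : ℂ → ℂ) : 0 ≤ (s.map fun w => ‖u w‖).prod :=
  Multiset.prod_nonneg fun a ha => by
    rw [Multiset.mem_map] at ha
    obtain ⟨w, _, rfl⟩ := ha
    exact norm_nonneg _

theorem le_star {y : ℝ} (p : ℂ[X]) {z : ℂ} (hz : y ≤ z.im) : ‖p.eval z‖ ≤ ‖(J4H34.DN.star y p).eval z‖ := by
  rw [eval_roots, eval_star]
  exact mul_le_mul_of_nonneg_left (Multiset.prod_map_le_prod_map₀ _ _
    (fun _ _ => norm_nonneg _) fun w _ => fold_le hz w) (norm_nonneg _)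

theorem star_eq {y : ℝ} (p : ℂ[X]) {z : ℂ} (hz : z.im = y) :
    ‖(J4H34.DN.star y p).eval z‖ = ‖p.eval z‖ := by
  rw [eval_star, eval_roots]
  congr 2
  exact Multiset.map_congr rfl fun w _ => fold_eq hz w

/-- moving up increases a polynomial with low roots -/
theorem up {y : ℝ} {A : ℂ[X]} (hA : Low y A) {z : ℂ} (hz : y ≤ z.im) {ε : ℝ} (hε : 0 ≤ ε) :
    ‖A.eval z‖ ≤ ‖A.eval (z + ε * I)‖ := by
  rw [eval_roots, eval_roots]
  refine mul_le_mul_of_nonneg_left (Multiset.prod_map_le_prod_map₀ _ _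
    (fun _ _ => norm_nonneg _) fun w hw => norm_le_of_sq ?_) (norm_nonneg _)
  have h1 := hA w hw
  have h2 : (z + ε * I - w).re = (z - w).re := by simp
  have h3 : (z + ε * I - w).im = (z - w).im + ε := by simp; ring
  rw [h2, h3]
  have h4 : 0 ≤ (z - w).im := by rw [sub_im]; linarith
  nlinarith

/-- the lower bound at distance `ε` -/
theorem low_bd {y ε : ℝ} (hε : 0 < ε) (s : Multiset ℂ) (hs : ∀ w ∈ s, w.im ≤ y) :
    ∃ c : ℝ, 0 < c ∧ ∀ z : ℂ, y ≤ z.im →
      c * (1 + ‖z‖) ^ Multiset.card s ≤ (s.map fun w => ‖z + ε * I - w‖).prod := by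
  induction s using Multiset.induction_on with
  | empty => exact ⟨1, one_pos, fun z _ => by simp⟩
  | cons w s ih =>
    obtain ⟨c, hc, h⟩ := ih fun v hv => hs v (Multiset.mem_cons_of_mem hv)
    have hw := hs w (Multiset.mem_cons_self _ _)
    set b : ℝ := (1 + ‖w‖ + ε) / ε + 1 with hb
    have hbpos : 0 < b := by positivity
    refine ⟨c / b, by positivity, fun z hz => ?_⟩
    rw [Multiset.map_cons, Multiset.prod_cons, Multiset.card_cons, pow_succ]
    have h1 := h z hz
    have h2 : ε ≤ ‖z + ε * I - w‖ := by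
      have h3 : (z + ε * I - w).im = z.im - w.im + ε := by simp; ring
      have h4 := Complex.abs_im_le_norm (z + ε * I - w)
      rw [h3] at h4
      exact le_trans (by linarith) ((le_abs_self _).trans h4)
    have h3 : 1 + ‖z‖ ≤ b * ‖z + ε * I - w‖ := by
      have h4 : ‖z‖ ≤ ‖z + ε * I - w‖ + ‖w‖ + ε := by
        have h5 : z = (z + ε * I - w) + w - ε * I := by ring
        calc ‖z‖ = ‖(z + ε * I - w) + w - ε * I‖ := by rw [← h5]
          _ ≤ ‖(z + ε * I - w) + w‖ + ‖(ε : ℂ) * I‖ := norm_sub_le _ _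
          _ ≤ ‖z + ε * I - w‖ + ‖w‖ + ε := by
            have h6 : ‖(ε : ℂ) * I‖ = ε := by
              rw [norm_mul, norm_I, mul_one, Complex.norm_real, Real.norm_eq_abs,
                abs_of_pos hε]
            rw [h6]
            linarith [norm_add_le (z + ε * I - w) w]
      have h5 : 1 + ‖w‖ + ε ≤ (1 + ‖w‖ + ε) / ε * ‖z + ε * I - w‖ := by
        rw [div_mul_eq_mul_div, le_div_iff₀ hε]
        exact mul_le_mul_of_nonneg_left h2 (by positivity)
      rw [hb]
      linarith
    have h4 : c / b * ((1 + ‖z‖) ^ Multiset.card s * (1 + ‖z‖)) =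
        (c * (1 + ‖z‖) ^ Multiset.card s) * ((1 + ‖z‖) / b) := by ring
    rw [h4, mul_comm ‖z + ε * I - w‖]
    refine mul_le_mul h1 ?_ (by positivity) ?_
    · rw [div_le_iff₀ hbpos, mul_comm]
      exact h3
    · exact le_trans (by positivity) h1

theorem up_bd (s : Multiset ℂ) : ∃ c : ℝ, 0 < c ∧ ∀ z : ℂ,
      (s.map fun w => ‖z - w‖).prod ≤ c * (1 + ‖z‖) ^ Multiset.card s := by
  induction s using Multiset.induction_on with
  | empty => exact ⟨1, one_pos, fun z => by simp⟩
  | cons w s ih =>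
    obtain ⟨c, hc, h⟩ := ih
    refine ⟨c * (1 + ‖w‖), by positivity, fun z => ?_⟩
    rw [Multiset.map_cons, Multiset.prod_cons, Multiset.card_cons, pow_succ]
    have h1 : ‖z - w‖ ≤ (1 + ‖w‖) * (1 + ‖z‖) := by
      have := norm_sub_le z w
      nlinarith [norm_nonneg z, norm_nonneg w, mul_nonneg (norm_nonneg z) (norm_nonneg w)]
    calc ‖z - w‖ * (s.map fun w => ‖z - w‖).prod
        ≤ ((1 + ‖w‖) * (1 + ‖z‖)) * (c * (1 + ‖z‖) ^ Multiset.card s) :=
          mul_le_mul h1 (h z) (prod_nonneg' s fun w => z - w) (by positivity)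
      _ = c * (1 + ‖w‖) * ((1 + ‖z‖) ^ Multiset.card s * (1 + ‖z‖)) := by ring

/-- the maximum principle -/
theorem maxp {y : ℝ} {q A : ℂ[X]} (hA : Low y A) (hA0 : A ≠ 0) (hd : q.natDegree ≤ A.natDegree)
    (h : ∀ z : ℂ, z.im = y → ‖q.eval z‖ ≤ ‖A.eval z‖) {ε : ℝ} (hε : 0 < ε) {z : ℂ}
    (hz : y ≤ z.im) : ‖q.eval z‖ ≤ ‖A.eval (z + ε * I)‖ := by
  have hne : ∀ v : ℂ, y ≤ v.im → A.eval (v + ε * I) ≠ 0 := fun v hv =>
    hA.ne hA0 (by simp; linarith)
  obtain ⟨c, hc, hlow⟩ := low_bd hε A.roots hA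
  obtain ⟨c', hc', hup⟩ := up_bd q.roots
  have hl : 0 < ‖A.leadingCoeff‖ := norm_pos_iff.2 (leadingCoeff_ne_zero.2 hA0)
  set M : ℝ := ‖q.leadingCoeff‖ * c' / (‖A.leadingCoeff‖ * c) with hM
  have hM0 : 0 ≤ M := by positivity
  have hbd : ∀ v : ℂ, y ≤ v.im → ‖q.eval v / A.eval (v + ε * I)‖ ≤ M := by
    intro v hv
    rw [norm_div, div_le_iff₀ (norm_pos_iff.2 (hne v hv)), eval_roots, eval_roots]
    have h1 := hup v
    have h2 := hlow v hv
    have h3 : (1 + ‖v‖) ^ Multiset.card q.roots ≤ (1 + ‖v‖) ^ Multiset.card A.roots := by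
      refine pow_le_pow_right₀ (by linarith [norm_nonneg v]) ?_
      rw [← (IsAlgClosed.splits q).natDegree_eq_card_roots,
        ← (IsAlgClosed.splits A).natDegree_eq_card_roots]
      exact hd
    calc ‖q.leadingCoeff‖ * (q.roots.map fun w => ‖v - w‖).prod
        ≤ ‖q.leadingCoeff‖ * (c' * (1 + ‖v‖) ^ Multiset.card A.roots) :=
          mul_le_mul_of_nonneg_left (h1.trans (mul_le_mul_of_nonneg_left h3 hc'.le))
            (norm_nonneg _)
      _ = M * (‖A.leadingCoeff‖ * (c * (1 + ‖v‖) ^ Multiset.card A.roots)) := by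
          rw [hM]
          field_simp
      _ ≤ M * (‖A.leadingCoeff‖ * (A.roots.map fun w => ‖v + ε * I - w‖).prod) :=
          mul_le_mul_of_nonneg_left (mul_le_mul_of_nonneg_left h2 hl.le) hM0
  set G : ℂ → ℂ := fun v => q.eval (I * v + y * I) / A.eval (I * v + y * I + ε * I) with hG
  have him : ∀ v : ℂ, 0 ≤ v.re → y ≤ (I * v + y * I).im := by
    intro v hv
    have : (I * v + y * I).im = v.re + y := by simp
    rw [this]
    linarith
  have hcl : closure {z : ℂ | 0 < z.re} ⊆ {z : ℂ | 0 ≤ z.re} :=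
    closure_minimal (fun z (hz : 0 < z.re) => hz.le) (isClosed_le continuous_const continuous_re)
  have key : ‖G (-I * z - y)‖ ≤ 1 := by
    refine PhragmenLindelof.right_half_plane_of_bounded_on_real ?_ ?_ ?_ ?_ ?_
    · apply DifferentiableOn.diffContOnCl
      intro v hv
      have h1 := hne _ (him v (hcl hv))
      apply DifferentiableAt.differentiableWithinAt
      refine DifferentiableAt.div ?_ ?_ h1
      · exact q.differentiable.differentiableAt.comp v (by fun_prop)
      · exact A.differentiable.differentiableAt.comp v (by fun_prop)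
    · refine ⟨1, by norm_num, 0, ?_⟩
      refine Asymptotics.IsBigO.of_bound M ?_
      rw [eventually_inf_principal]
      refine Eventually.of_forall fun v hv => ?_
      rw [zero_mul, Real.exp_zero, norm_one, mul_one]
      exact hbd _ (him v (le_of_lt hv))
    · refine ⟨M, ?_⟩
      rw [eventually_map]
      filter_upwards [eventually_ge_atTop 0] with x hx
      exact hbd _ (him _ (by simpa using hx))
    · intro x
      have h1 : (I * (x * I) + y * I).im = y := by simp
      rw [hG]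
      simp only
      rw [norm_div, div_le_one (norm_pos_iff.2 (hne _ h1.ge))]
      exact (h _ h1).trans (up hA h1.ge hε.le)
    · simp
      linarith
  have hzz : I * (-I * z - y) + y * I = z := by
    linear_combination (-z) * I_sq
  rw [hG] at key
  simp only [hzz] at key
  rw [norm_div, div_le_one (norm_pos_iff.2 (hne z hz))] at key
  exact key

/-- (A) -/
theorem t_A : S_A := by
  intro p y n z hz
  set A := derivative^[n] (J4H34.DN.star y p) with hA
  set q := J4H34.DN.star y (derivative^[n] p) with hq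
  have hdeg : (derivative^[n] p).natDegree = A.natDegree := by
    rw [hA, nd_iter, nd_iter, natDegree_star]
  obtain ⟨hAL, hdom⟩ := dom_iter (f := p) (star_low y p) (natDegree_star y p).ge
    (fun z hz => le_star p hz.le) n
  rw [← hA] at hAL hdom
  by_cases hA0 : A = 0
  · have h1 : derivative^[n] p = 0 := by
      apply Polynomial.eq_of_infinite_eval_eq
      refine Set.Infinite.mono (s := {v : ℂ | y < v.im}) ?_ ?_
      · intro v hv
        have h2 := hdom v hv
        rw [hA0, eval_zero, norm_zero] at h2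
        rw [Set.mem_ofPred_eq, eval_zero]
        exact norm_le_zero_iff.1 h2
      · refine Set.infinite_of_injective_forall_mem (f := fun k : ℕ => (⟨0, y + 1 + k⟩ : ℂ)) ?_ ?_
        · intro a b hab
          have := congrArg Complex.im hab
          simpa using this
        · intro k
          show y < y + 1 + (k : ℝ)
          have : (0 : ℝ) ≤ k := Nat.cast_nonneg k
          linarith
    rw [hq, h1, star_zero, hA0]
  have hline : ∀ v : ℂ, v.im = y → ‖q.eval v‖ ≤ ‖A.eval v‖ := by
    intro v hv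
    rw [hq, star_eq _ hv]
    have h1 : Tendsto (fun ε : ℝ => ‖(derivative^[n] p).eval (v + ε * I)‖) (𝓝[>] 0)
        (𝓝 ‖(derivative^[n] p).eval (v + (0 : ℝ) * I)‖) := by
      apply Tendsto.mono_left _ nhdsWithin_le_nhds
      have : Continuous fun ε : ℝ => ‖(derivative^[n] p).eval (v + ε * I)‖ := by fun_prop
      exact this.tendsto 0
    have h2 : Tendsto (fun ε : ℝ => ‖A.eval (v + ε * I)‖) (𝓝[>] 0)
        (𝓝 ‖A.eval (v + (0 : ℝ) * I)‖) := by
      apply Tendsto.mono_left _ nhdsWithin_le_nhds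
      have : Continuous fun ε : ℝ => ‖A.eval (v + ε * I)‖ := by fun_prop
      exact this.tendsto 0
    have h3 := le_of_tendsto_of_tendsto h1 h2 (by
      filter_upwards [self_mem_nhdsWithin] with ε hε
      have hε' : (0 : ℝ) < ε := hε
      refine hdom _ ?_
      simp [hv, hε'])
    simpa using h3
  have hfin : Tendsto (fun ε : ℝ => ‖A.eval (z + ε * I)‖) (𝓝[>] 0)
      (𝓝 ‖A.eval (z + (0 : ℝ) * I)‖) := by
    apply Tendsto.mono_left _ nhdsWithin_le_nhds
    have : Continuous fun ε : ℝ => ‖A.eval (z + ε * I)‖ := by fun_prop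
    exact this.tendsto 0
  have h4 := ge_of_tendsto hfin (by
    filter_upwards [self_mem_nhdsWithin] with ε hε
    exact maxp (q := q) hAL hA0 (by rw [hq, natDegree_star, hdeg]) hline hε hz)
  simpa using h4

end Pool.Agent.J4H97.DN
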